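import Pool.Agent.H639R2.FE.Defs
import Pool.Agent.H639R2.FE.Final

/-!
# Family equivalence of grammar forms is undecidable

Idea.  For a context-free grammar `H` without `λ`-productions over a finite alphabet let `G₂` be
the form with the productions `S → #C#` (where `C` starts `H`) and `S → ##a₁...aₘ##`, where
`a₁, ..., aₘ` are all the terminals of `H`; let `G₁` be `G₂` together with `S → #vR#` and
right-linear productions by which `R` generates all nonempty words over a part of the alphabet.
If all the words `v u` belong to `L(H)`, then the regular part of an interpretation of `G₁` can be
simulated by an interpretation of `G₂` (triple construction).  Otherwise `L(G₁)` is not in the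
family of `G₂`: the word `##a₁...aₘ##` forces the letter-to-letter morphism to be the identity.
Here `L(H)` is the complement of the set of encoded solutions of a fixed system of word equations
`g(s) z = w h(s)`, which describes the halting computations of a universal queue system with
initial word `w`, and `v` is an encoding of `w`.
-/

set_option autoImplicit false

namespace Pool.Agent.Results.MP_3cd25e_lc.Undecidable

open Pool.Agent.H639R2.FE

/-- Family equivalence is undecidable: there is no decidable predicate on pairs of descriptions
of grammars which, on descriptions of grammars `G₁` and `G₂`, says whether their grammatical
families are equal. -/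
theorem result :
    ¬ ∃ D : Desc × Desc → Prop, ComputablePred D ∧
      ∀ (d₁ d₂ : Desc) (G₁ G₂ : Grammar), Describes d₁ G₁ → Describes d₂ G₂ →
        (D (d₁, d₂) ↔ family G₁ = family G₂) :=
  undecidable

end Pool.Agent.Results.MP_3cd25e_lc.Undecidable
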